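import Pool.Agent.N49.NT_LOWN

/-!
# The lower bound: the types of the tuples

`Pool.Agent.N49.NT.lown` with the information that for each prime `p` the set of the coordinates divisible by `p` is the
set of the `i` with `p ∣ D i` or has at most one element.
-/

set_option autoImplicit false

namespace Pool.Agent.U189.NT

open Finset Filter Topology Pool.Agent.N906.NT Pool.Agent.N49.NT Pool.Agent.N49.NT.LW

/-- LOWN with the types -/
def C_LOWN : Prop := ∀ n r : ℕ, 1 ≤ r → r + 2 ≤ n → ∃ c₁ c C₀ : ℝ, 0 < c₁ ∧ 0 < c ∧ 5 < C₀ ∧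
  ∀ (X z P : ℝ) (j : ℕ) (D : Fin n → ℕ), Tp (Dl n r) D → Sq D → C₀ ≤ z →
    (∀ p ∈ (pr D).primeFactors, z < (p : ℝ) ∧ (p : ℝ) ≤ P) → z ≤ P →
    ∑ p ∈ (pr D).primeFactors, (1 : ℝ) / p ≤ c₁ →
    C₀ * ((3 : ℝ) ^ j * pr D) ^ 2 * P ^ 2 ≤ X →
  ∃ F : Finset (Fin n → ℤ),
    (∀ x ∈ F, ∑ i, x i = 0 ∧ (∀ i, x i ≠ 0) ∧ NV x ∧
      (∀ p : ℕ, p.Prime → (univ.filter fun i => p ∣ ab x i) = (univ.filter fun i => p ∣ D i) ∨
        (univ.filter fun i => p ∣ ab x i).card ≤ 1) ∧ (∀ i, |(x i : ℝ)| ≤ X) ∧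
      (∃ i, X / n ≤ |(x i : ℝ)|) ∧
      (3 : ℝ) ^ j * gn D ≤ gn (ab x) ∧
      ∀ p : ℕ, p.Prime → z < (p : ℝ) → (p : ℝ) ≤ P →
        (p ∣ pr D → ∀ i, (x i).natAbs.factorization p = (D i).factorization p) ∧
        (¬ p ∣ pr D → ∑ i, (x i).natAbs.factorization p ≤ 1)) ∧
    c * X ^ (n - 1) / ((3 : ℝ) ^ j * pr D) ≤ F.card

/-- LOWN -/
theorem lown (h : S_BOX) : C_LOWN := by
  classical
  intro n r hr1 hr
  have hn : 3 ≤ n := by omega
  obtain ⟨l, hl⟩ : ∃ l : Fin n, (l : ℕ) = 0 := ⟨⟨0, by omega⟩, rfl⟩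
  obtain ⟨c, hcl, hcs, hcp⟩ := exists_tuple hn l hl
  obtain ⟨C₁, hC₁⟩ : ∃ C₁ : ℕ, C₁ = 16 * (n ^ 2 + n) * 4 ^ (n - 1) := ⟨_, rfl⟩
  obtain ⟨K, hK⟩ : ∃ K : ℕ, K = ∏ p ∈ (range (C₁ + 1)).filter (fun p => p.Prime ∧ p ≠ 3), p :=
    ⟨_, rfl⟩
  have hKpos : 1 ≤ K := by
    rw [hK]
    show 0 < ∏ p ∈ (range (C₁ + 1)).filter (fun p => p.Prime ∧ p ≠ 3), p
    exact prod_pos fun p hp => (mem_filter.1 hp).2.1.pos
  have hKp : ∀ q : ℕ, q.Prime → (q ∣ K ↔ q ≤ C₁ ∧ q ≠ 3) := by
    intro q hq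
    rw [hK, hq.prime.dvd_finsetProd_iff]
    constructor
    · rintro ⟨p, hp, hqp⟩
      rw [mem_filter, mem_range] at hp
      have := (Nat.prime_dvd_prime_iff_eq hq hp.2.1).1 hqp
      subst this
      exact ⟨by omega, hp.2.2⟩
    · rintro ⟨h1, h2⟩
      exact ⟨q, mem_filter.2 ⟨mem_range.2 (by omega), hq, h2⟩, dvd_rfl⟩
  have h4n : 1 ≤ 4 ^ (n - 1) := Nat.one_le_pow _ _ (by norm_num)
  have hC3 : 3 ≤ C₁ := by
    rw [hC₁]
    nlinarith
  have hn0 : (0 : ℝ) < n := by
    have : 0 < n := by omega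
    exact_mod_cast this
  have hn1 : (1 : ℝ) ≤ n := by
    have : 1 ≤ n := by omega
    exact_mod_cast this
  have hn3 : (3 : ℝ) ≤ n := by exact_mod_cast hn
  have hKr : (1 : ℝ) ≤ K := by exact_mod_cast hKpos
  obtain ⟨a, ha⟩ : ∃ a : ℝ, a = 4 ^ (n - 1) := ⟨_, rfl⟩
  have ha1 : 1 ≤ a := by
    rw [ha]
    exact_mod_cast h4n
  have hCr : (C₁ : ℝ) = 16 * ((n : ℝ) ^ 2 + n) * a := by
    rw [hC₁, ha]
    push_cast
    ring
  obtain ⟨L, hL⟩ : ∃ L : ℝ, L = 768 * (n : ℝ) ^ 3 * a * (3 * K) ^ n := ⟨_, rfl⟩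
  have hL0 : 0 ≤ L := by rw [hL]; positivity
  refine ⟨1 / (8 * n * a), 1 / (2 * (12 * n * K) ^ (n - 1)), C₁ + 6 + L, by positivity, by positivity,
    by have : (0 : ℝ) ≤ C₁ := by positivity
       linarith, ?_⟩
  intro X z Q j D hT hSq hz hp hzQ hs hX
  have hprD : pr D ≠ 0 := by
    have : 0 < pr D := by
      show 0 < ∏ i, D i
      exact prod_pos fun k _ => hT.1 k
    omega
  have hCz : (C₁ : ℝ) ≤ z := by linarith
  have P : Par n r l C₁ K D := ⟨hr1, hr, hC3, hKpos, hKp, hT, fun p hpp hpd => by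
    have h1 := (hp p (Nat.mem_primeFactors.2 ⟨hpp, hpd, hprD⟩)).1
    exact_mod_cast hCz.trans_lt h1⟩
  have hC0 : (0 : ℝ) ≤ C₁ := by positivity
  have hQ1 : 1 ≤ Q := by linarith
  have hQ2 : 1 ≤ Q ^ 2 := one_le_pow₀ hQ1
  obtain ⟨m, hm⟩ : ∃ m : ℝ, m = 3 ^ j * pr D := ⟨_, rfl⟩
  have hm1 : 1 ≤ m := by
    rw [hm]
    have : 1 ≤ 3 ^ j * pr D := Nat.mul_pos (by positivity) (pr_pos P)
    exact_mod_cast this
  have hmm : m ≤ m ^ 2 := by nlinarith
  rw [← hm] at hX ⊢
  have hPi : ((∏ k, DD l j K D k : ℕ) : ℝ) = 3 ^ n * K ^ (n - 1) * m := by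
    rw [prod_DD, hm]
    push_cast
    ring
  have hMM : (MM j K D : ℝ) = 3 * K * m := by
    unfold MM
    rw [hm]
    push_cast
    ring
  have hLK : 12 * n * K ≤ L := by
    rw [hL]
    have h1 : (3 * (K : ℝ)) ≤ (3 * K) ^ n := by
      have := pow_le_pow_right₀ (show (1 : ℝ) ≤ 3 * K by linarith) (show 1 ≤ n by omega)
      rwa [pow_one] at this
    have h2 : (n : ℝ) ≤ (n : ℝ) ^ 3 := by
      have := pow_le_pow_right₀ hn1 (show 1 ≤ 3 by norm_num)
      rwa [pow_one] at this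
    have h3 : (n : ℝ) * (3 * K) ≤ (n : ℝ) ^ 3 * (3 * K) ^ n :=
      mul_le_mul h2 h1 (by positivity) (by positivity)
    have h4 : (n : ℝ) ^ 3 * (3 * K) ^ n ≤ (n : ℝ) ^ 3 * (3 * K) ^ n * a :=
      le_mul_of_one_le_right (by positivity) ha1
    nlinarith
  have hXL : L * m ^ 2 * Q ^ 2 ≤ X := by
    refine le_trans ?_ hX
    refine mul_le_mul_of_nonneg_right (mul_le_mul_of_nonneg_right ?_ (by positivity)) (by positivity)
    linarith
  obtain ⟨Y, hY⟩ : ∃ Y : ℝ, Y = X / n := ⟨_, rfl⟩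
  have hXY : X = n * Y := by
    rw [hY]
    field_simp
  have h4 : 4 * (MM j K D : ℝ) * Q ^ 2 ≤ Y := by
    rw [hY, le_div_iff₀ hn0, hMM]
    refine le_trans ?_ hXL
    calc 4 * (3 * K * m) * Q ^ 2 * n = (12 * n * K) * m * Q ^ 2 := by ring
      _ ≤ L * m ^ 2 * Q ^ 2 := by
        refine mul_le_mul_of_nonneg_right ?_ (by positivity)
        exact mul_le_mul hLK hmm (by linarith) hL0
  have hMM1 : (1 : ℝ) ≤ MM j K D := by exact_mod_cast MM_pos P j
  have hY2 : 2 ≤ Y := by nlinarith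
  have hY0 : 0 < Y := by linarith
  have hYX : Y ≤ X := by
    rw [hXY]
    nlinarith
  obtain ⟨c', hc0, hc', hc3⟩ := exists_res P hcl hcs
  obtain ⟨T, hT'⟩ : ∃ T : Finset ℕ, T = (range (⌊X⌋₊ + 1)).filter
    (fun p => p.Prime ∧ C₁ < p ∧ ¬ p ∣ pr D) := ⟨_, rfl⟩
  have hTm : ∀ p ∈ T, p.Prime ∧ C₁ < p ∧ ¬ p ∣ pr D := fun p hp => by
    rw [hT'] at hp
    exact (mem_filter.1 hp).2
  have hsieve := sieve h P hY2 hQ1 h4 (fun p hpp => (hp p hpp).2) hc3 T hTm
  refine ⟨GG Y Q l j K D c' T, fun x hx => ?_, ?_⟩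
  · unfold GG at hx
    obtain ⟨hxA, g1, g2, g3⟩ := mem_filter.1 hx
    have hxB : x ∈ Bx n Y l := by
      unfold AA at hxA
      exact (mem_filter.1 hxA).1
    obtain ⟨hs0, hbox⟩ := (mem_Bx hY0).1 hxB
    obtain ⟨hd1, hd2⟩ := AA_dvd hc0 hc' hxA
    have hres := AA_res hY0 hcs hc' hxA
    have nv := nv_of hY0 hxB
    have hne : ∀ i, x i ≠ 0 := by
      intro i
      have := nv {i} (singleton_nonempty i) (by
        intro h
        have := congrArg card h
        rw [card_singleton, card_univ, Fintype.card_fin] at this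
        omega)
      rwa [sum_singleton] at this
    obtain ⟨hb1, hb2⟩ := l_bd hs0 hbox
    have hlneg : 0 ≤ -(x l : ℝ) := le_trans (mul_nonneg (by linarith) (by linarith)) hb1
    have habs : ∀ i, |(x i : ℝ)| ≤ X := by
      intro i
      by_cases hi : i = l
      · rw [hi, ← abs_neg, abs_of_nonneg hlneg]
        refine hb2.trans ?_
        rw [hXY]
        nlinarith
      · have h1 := hbox i hi
        rw [abs_of_pos (by linarith)]
        linarith
    have hpX : ∀ p : ℕ, ∀ i, (p : ℤ) ∣ x i → p < ⌊X⌋₊ + 1 := by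
      intro p i hpi
      have h1 : p ≤ (x i).natAbs :=
        Nat.le_of_dvd (Int.natAbs_pos.2 (hne i)) (Int.natCast_dvd.1 hpi)
      have h2 : ((x i).natAbs : ℝ) ≤ X := by
        have := habs i
        rwa [← Int.cast_abs, Int.abs_eq_natAbs, Int.cast_natCast] at this
      have h3 : p ≤ ⌊X⌋₊ := Nat.le_floor (le_trans (by exact_mod_cast h1) h2)
      omega
    have two : ∀ p : ℕ, p.Prime → ¬ p ∣ pr D → ∀ i k, (p : ℤ) ∣ x i → (p : ℤ) ∣ x k → i = k := by
      intro p hpp hpd i k hi hk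
      by_cases hpC : p ≤ C₁
      · have h1 : ((p : ℕ) : ℤ) ∣ ((3 * K : ℕ) : ℤ) := by
          have : p ∣ 3 * K := by
            by_cases h3 : p = 3
            · exact ⟨K, by rw [h3]⟩
            · exact ((hKp p hpp).2 ⟨hpC, h3⟩).mul_left 3
          exact_mod_cast this
        refine hcp p hpp i k ?_ ?_
        · have := dvd_sub hi (h1.trans (hres i))
          rwa [sub_sub_cancel] at this
        · have := dvd_sub hk (h1.trans (hres k))
          rwa [sub_sub_cancel] at this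
      · push Not at hpC
        by_contra hik
        exact g2 p (by rw [hT']; exact mem_filter.2 ⟨mem_range.2 (hpX p i hi), hpp, hpC, hpd⟩) i k hik
          ⟨hi, hk⟩
    have onD : ∀ p : ℕ, p.Prime → p ∣ pr D → ∀ i,
        (x i).natAbs.factorization p = (D i).factorization p := by
      intro p hpp hpd i
      have h1 : D i ∣ (x i).natAbs := Int.natCast_dvd.1 (hd2 i)
      obtain ⟨q, hq⟩ := h1
      have hx0 : (x i).natAbs ≠ 0 := Int.natAbs_ne_zero.2 (hne i)
      have hq0 : q ≠ 0 := by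
        rintro rfl
        rw [mul_zero] at hq
        exact hx0 hq
      have hD0 : D i ≠ 0 := by
        have := hT.1 i
        omega
      rw [hq, Nat.factorization_mul hD0 hq0, Finsupp.add_apply]
      have h2 : ¬ p ∣ q := by
        rintro ⟨q', rfl⟩
        refine g1 p (Nat.mem_primeFactors.2 ⟨hpp, hpd, hprD⟩) i ?_
        rw [Int.natCast_dvd, hq]
        exact ⟨q', by ring⟩
      rw [Nat.factorization_eq_zero_of_not_dvd h2, add_zero]
    refine ⟨hs0, hne, nv, fun p hpp => ?_, habs, ⟨l, ?_⟩, ?_, fun p hpp hzp hpQ =>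
      ⟨fun hpd i => onD p hpp hpd i, fun hpd => ?_⟩⟩
    · by_cases hpd : p ∣ pr D
      · left
        have h2 : (univ.filter fun i => p ∣ ab x i) = univ.filter fun i => p ∣ D i := by
          ext i
          rw [mem_filter, mem_filter]
          have hx0 : (x i).natAbs ≠ 0 := Int.natAbs_ne_zero.2 (hne i)
          have hD0 : D i ≠ 0 := by
            have := hT.1 i
            omega
          have h3 : p ∣ ab x i ↔ p ∣ D i := by
            show p ∣ (x i).natAbs ↔ p ∣ D i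
            rw [hpp.dvd_iff_one_le_factorization hx0, hpp.dvd_iff_one_le_factorization hD0,
              onD p hpp hpd i]
          rw [h3]
        exact h2
      · right
        rw [card_le_one]
        intro i hi k hk
        rw [mem_filter] at hi hk
        exact two p hpp hpd i k (Int.natCast_dvd.2 hi.2) (Int.natCast_dvd.2 hk.2)
    · rw [← abs_neg, abs_of_nonneg hlneg, ← hY]
      refine le_trans ?_ hb1
      nlinarith
    · have h1 : 3 ^ (j + 1) * pr D ∣ pr (ab x) := by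
        have h2 : 3 ^ (j + 1) * pr D = ∏ i, (if i = l then 3 ^ (j + 1) else 1) * D i := by
          rw [prod_mul_distrib, prod_ite_eq', if_pos (mem_univ l)]
          rfl
        rw [h2]
        unfold pr
        refine prod_dvd_prod_of_dvd _ _ fun i _ => ?_
        show _ ∣ (x i).natAbs
        rw [← Int.natCast_dvd]
        split_ifs with hi
        · rw [hi]
          exact hd1
        · rw [one_mul]
          exact hd2 i
      have hx0 : pr (ab x) ≠ 0 := by
        unfold pr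
        exact prod_ne_zero_iff.2 fun i _ => Int.natAbs_ne_zero.2 (hne i)
      have h2 := gain_le hx0 h1
      have h3 : (∏ p ∈ (3 ^ (j + 1) * pr D).primeFactors, p : ℕ) = 3 * rr D := by
        rw [Nat.primeFactors_mul (by positivity) hprD, Nat.primeFactors_prime_pow (by omega)
          Nat.prime_three, prod_union, prod_singleton]
        · rfl
        · rw [disjoint_singleton_left]
          intro h3
          have := P.big 3 Nat.prime_three (Nat.dvd_of_mem_primeFactors h3)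
          omega
      rw [h3] at h2
      have h5 : (0 : ℝ) < rr D := by
        have : 0 < rr D := prod_pos fun p hp => (Nat.prime_of_mem_primeFactors hp).pos
        exact_mod_cast this
      calc (3 : ℝ) ^ j * gn D = ((3 ^ (j + 1) * pr D : ℕ) : ℝ) / ((3 * rr D : ℕ) : ℝ) := by
            unfold gn
            push_cast
            rw [pow_succ]
            field_simp
        _ ≤ _ := h2
    · have hpC : C₁ < p := by exact_mod_cast hCz.trans_lt hzp
      have h1 : ∀ i, (x i).natAbs.factorization p ≤ 1 := by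
        intro i
        by_contra hcon
        push Not at hcon
        have h2 : p ^ 2 ∣ (x i).natAbs := (pow_dvd_pow p hcon).trans (Nat.ordProj_dvd _ _)
        have h3 : (p : ℤ) ^ 2 ∣ x i := by
          have := Int.natCast_dvd.2 h2
          exact_mod_cast this
        exact g3 p (by
          rw [hT']
          exact mem_filter.2 ⟨mem_range.2 (hpX p i ((dvd_pow_self _ (by norm_num)).trans h3)),
            hpp, hpC, hpd⟩) hpQ i h3
      by_cases hex : ∃ i, (x i).natAbs.factorization p ≠ 0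
      · obtain ⟨i, hi⟩ := hex
        rw [sum_eq_single i]
        · exact h1 i
        · intro k _ hki
          by_contra hk
          have h2 : ∀ k, (x k).natAbs.factorization p ≠ 0 → (p : ℤ) ∣ x k := by
            intro k hk
            exact Int.natCast_dvd.2 (Nat.dvd_of_factorization_pos hk)
          exact hki (two p hpp hpd k i (h2 k hk) (h2 i hi))
        · intro h
          exact absurd (mem_univ _) h
      · push Not at hex
        rw [sum_eq_zero fun i _ => hex i]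
        exact Nat.zero_le _
  · rw [hPi, hMM] at hsieve
    obtain ⟨V, hV⟩ : ∃ V : ℝ, V = Y ^ (n - 1) := ⟨_, rfl⟩
    have hV0 : 0 < V := by rw [hV]; positivity
    obtain ⟨B, hB⟩ : ∃ B : ℝ, B = 3 ^ n * K ^ (n - 1) * m := ⟨_, rfl⟩
    have hB0 : 0 < B := by rw [hB]; positivity
    obtain ⟨N, hN⟩ : ∃ N : ℝ, N = ((GG Y Q l j K D c' T).card : ℝ) := ⟨_, rfl⟩
    have hm0 : 0 < m := by linarith
    have ha0 : 0 < a := by linarith
    have e1 : (Y / 4) ^ (n - 1) * 3 / B = 3 * V / B / a := by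
      rw [div_pow, ← ha, ← hV]
      field_simp
    rw [← hB, e1, ← hV, ← hN] at hsieve
    have e2 : (n : ℝ) * (3 * V / B) * ∑ p ∈ (pr D).primeFactors, (1 : ℝ) / p ≤ 3 * V / B / (8 * a) := by
      refine (mul_le_mul_of_nonneg_left hs (by positivity)).trans (le_of_eq ?_)
      field_simp
    have e3 : (n : ℝ) ^ 2 * (3 * V / B * (2 / C₁)) + n * (3 * V / B * (2 / C₁)) =
        3 * V / B / (8 * a) := by
      rw [hCr]
      have : (n : ℝ) ^ 2 + n ≠ 0 := by positivity
      field_simp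
      ring
    have hKn : (K : ℝ) * K ^ (n - 1) = K ^ n := by
      rw [← pow_succ']
      congr 1
      omega
    have e4 : (n : ℝ) ^ 2 * (32 * (3 * K * m) * V / Y) ≤ 3 * V / B / (8 * a) := by
      rw [div_div, mul_div_assoc', div_le_div_iff₀ hY0 (by positivity)]
      have h5 : 256 * (n : ℝ) ^ 3 * a * (3 * K) ^ n * m ^ 2 ≤ X := by
        refine le_trans ?_ hXL
        have h6 : 256 * (n : ℝ) ^ 3 * a * (3 * K) ^ n ≤ L := by
          rw [hL]
          have : 0 ≤ (n : ℝ) ^ 3 * a * (3 * K) ^ n := by positivity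
          nlinarith
        have h7 : 256 * (n : ℝ) ^ 3 * a * (3 * K) ^ n * m ^ 2 ≤ L * m ^ 2 :=
          mul_le_mul_of_nonneg_right h6 (by positivity)
        exact h7.trans (le_mul_of_one_le_right (by positivity) hQ2)
      have h8 : 256 * (n : ℝ) ^ 2 * a * (3 * K) ^ n * m ^ 2 ≤ Y := by
        rw [hY, le_div_iff₀ hn0]
        refine le_trans (le_of_eq ?_) h5
        ring
      have h9 : (n : ℝ) ^ 2 * (32 * (3 * K * m) * V) * (B * (8 * a)) =
          3 * V * (256 * (n : ℝ) ^ 2 * a * (3 * K) ^ n * m ^ 2) := by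
        rw [hB, mul_pow, ← hKn]
        ring
      rw [h9]
      exact mul_le_mul_of_nonneg_left h8 (by positivity)
    have e5 : 3 * V / B / (8 * a) = 3 * V / B / a / 8 := by
      field_simp
    have e6 : 1 / (2 * (12 * (n : ℝ) * K) ^ (n - 1)) * X ^ (n - 1) / m = 3 * V / B / a / 2 := by
      rw [hB, hV, ha, hXY]
      obtain ⟨n', hn'⟩ : ∃ n' : ℕ, n = n' + 1 := ⟨n - 1, by omega⟩
      have h12 : (12 : ℝ) * n * K = 3 * 4 * n * K := by ring
      rw [h12, hn', Nat.add_sub_cancel, mul_pow, mul_pow, mul_pow, mul_pow, pow_succ (3 : ℝ) n']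
      field_simp
    rw [← hN]
    rw [e6]
    rw [e5] at e2 e3 e4
    have hpos : 0 < 3 * V / B / a := by positivity
    have e7 : (n : ℝ) ^ 2 * (3 * V / B * (2 / C₁) + 32 * (3 * K * m) * V / Y) =
      (n : ℝ) ^ 2 * (3 * V / B * (2 / C₁)) + (n : ℝ) ^ 2 * (32 * (3 * K * m) * V / Y) := by ring
    rw [e7] at hsieve
    linarith

end Pool.Agent.U189.NT
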