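import Pool.Agent.N130.NT_UP
import Pool.Agent.U189.NT.Upa

/-!
# The upper bound for the tuples of a given type

`Pool.Agent.N130.NT.up` for an arbitrary simplicial complex `Δ` instead of the complex of all sets with at most `r`
elements.
-/

set_option autoImplicit false

namespace Pool.Agent.U189.NT

open Finset Filter Topology Pool.Agent.N906.NT Pool.Agent.N130.NT

theorem tp_mono {n r t : ℕ} {Δ : Finset (Finset (Fin n))} (h : Cx Δ r t) {D : Fin n → ℕ} (hD : Tp Δ D) :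
    Tp (Dl n r) D := by
  refine ⟨hD.1, fun p hp => ?_⟩
  unfold Dl
  rw [mem_filter]
  exact ⟨mem_univ _, h.2.2.2.2.1 _ (hD.2 p hp)⟩

/-- UP for a complex `Δ` with faces of at most `r` elements, `t` of which have `r` elements -/
def C_UP : Prop := ∀ (n r t : ℕ) (Δ : Finset (Finset (Fin n))) (κ ε : ℝ), Cx Δ r t → r + 2 ≤ n → 0 < κ → κ < 1 / 3 →
  0 < ε →
  ∃ X₀ : ℝ, 3 < X₀ ∧ ∀ (X : ℝ) (F : Finset (Fin n → ℤ)), X₀ ≤ X →
    (∀ x ∈ F, ∑ i, x i = 0 ∧ (∀ i, x i ≠ 0) ∧ Tp Δ (ab x) ∧ (∀ i, |(x i : ℝ)| ≤ X) ∧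
      (∃ i, X / 2 < |(x i : ℝ)|) ∧ (rr (ab x) : ℝ) ≤ X ^ ((n : ℝ) - κ)) →
    (F.card : ℝ) ≤ Real.exp (((n : ℝ) - 1 - κ) * Real.log X +
      (1 + ε) * cst r t *
        (κ * Real.log X / Real.log (Real.log X)) ^ ((r : ℝ) / (r + 1)))

/-- one box -/
theorem box_le (h1 : S_RED) (n r t : ℕ) (Δ : Finset (Finset (Fin n))) (hcx : Cx Δ r t) (κ η : ℝ)
    (hrn : r + 2 ≤ n) (hκ : 0 < κ)
    (X EA : ℝ) (hX : 1 ≤ X) (hXE : X ^ ((n : ℝ) - 1 - κ) ≤ EA)
    (hA : ∀ (T : ℝ) (B : Fin n → ℝ) (l : Fin n) (F : Finset (Fin n → ℤ)),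
      1 ≤ T → T ≤ X ^ κ → (∀ k, 1 ≤ B k ∧ B k ≤ X) → B l = X →
      ∏ k, B k = 2 ^ n * T * X ^ ((n : ℝ) - κ) →
      (∀ x ∈ F, ∑ i, x i = 0 ∧ (∀ k, x k ≠ 0 ∧ |(x k : ℝ)| ≤ B k) ∧
        ∃ D : Fin n → ℕ, (∀ i, (D i : ℤ) ∣ x i) ∧ Tp Δ D ∧ Sq D ∧ T ≤ gn D ∧
          gn D ≤ T * X ^ η) → (F.card : ℝ) ≤ EA)
    (hB : ∀ (T : ℝ) (B : Fin n → ℝ) (l : Fin n) (F : Finset (Fin n → ℤ)),
      1 ≤ T → T ≤ X ^ κ → (∀ k, 1 ≤ B k ∧ B k ≤ X) → B l = X →
      ∏ k, B k = 2 ^ n * T * X ^ ((n : ℝ) - κ) →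
      (∀ x ∈ F, ∑ i, x i = 0 ∧ NV x ∧ (∀ k, B k / 2 < |(x k : ℝ)| ∧ |(x k : ℝ)| ≤ B k) ∧
        ∃ D : Fin n → ℕ, (∀ i, (D i : ℤ) ∣ x i) ∧ Tp (Dl n r) D ∧ Sq D ∧ T * X ^ η < gn D ∧
          ∀ p : ℕ, p.Prime → p ∣ pr D → gn D / p < T) → (F.card : ℝ) ≤ X ^ ((n : ℝ) - 1 - κ))
    (B : Fin n → ℝ) (l : Fin n) (hB1 : ∀ k, 1 ≤ B k ∧ B k ≤ X) (hBl : B l = X)
    (F : Finset (Fin n → ℤ))
    (hF : ∀ x ∈ F, ∑ i, x i = 0 ∧ (∀ i, x i ≠ 0) ∧ Tp Δ (ab x) ∧ NV x ∧
      (∀ k, B k / 2 < |(x k : ℝ)| ∧ |(x k : ℝ)| ≤ B k) ∧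
      (rr (ab x) : ℝ) ≤ X ^ ((n : ℝ) - κ)) : (F.card : ℝ) ≤ (6 ^ n + 2) * EA := by
  classical
  have hX0 : 0 < X := by linarith
  have hB0 : ∀ k, 0 < B k := fun k => by linarith [(hB1 k).1]
  have hprod : 0 < ∏ k, B k := Finset.prod_pos fun k _ => hB0 k
  have hE0 : 0 < X ^ ((n : ℝ) - 1 - κ) := by positivity
  have hXn : 0 < X ^ ((n : ℝ) - κ) := by positivity
  set T : ℝ := (∏ k, B k) / (2 ^ n * X ^ ((n : ℝ) - κ)) with hT
  have hT0 : 0 < T := by positivity
  have hTB : ∏ k, B k = 2 ^ n * T * X ^ ((n : ℝ) - κ) := by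
    rw [hT]; field_simp
  have hprodX : ∏ k, B k ≤ X ^ n := by
    calc ∏ k, B k ≤ ∏ _k : Fin n, X := Finset.prod_le_prod (fun k _ => (hB0 k).le)
          (fun k _ => (hB1 k).2)
      _ = X ^ n := by rw [Finset.prod_const, Finset.card_univ, Fintype.card_fin]
  have hTX : T ≤ X ^ κ := by
    rw [hT, div_le_iff₀ (by positivity)]
    have e1 : X ^ κ * (2 ^ n * X ^ ((n : ℝ) - κ)) = 2 ^ n * X ^ n := by
      rw [Real.rpow_sub hX0, Real.rpow_natCast]
      field_simp
    rw [e1]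
    have h2n : (1 : ℝ) ≤ 2 ^ n := one_le_pow₀ (by norm_num)
    have hXn' : 0 < X ^ n := by positivity
    nlinarith
  rcases lt_or_ge T 1 with hT1 | hT1
  · -- few tuples in the box
    have hc := cnt F (fun x k => if k = l then 0 else x k)
      (by
        intro x hx y hy h
        apply ext_of_sum (hF x hx).1 (hF y hy).1 l
        intro k hk
        have h2 := congrFun h k
        simpa only [if_neg hk] using h2)
      (fun k => if k = l then 0 else B k) (by
        intro k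
        split_ifs
        · exact le_rfl
        · exact (hB0 k).le) (by
        intro x hx k
        by_cases hk : k = l
        · rw [if_pos hk, if_pos hk]; simp
        · rw [if_neg hk, if_neg hk]
          exact ((hF x hx).2.2.2.2.1 k).2)
    have hc2 := prod_g B (fun k => if k = l then 0 else B k) l l l (1 / X) 1 1 (by
        intro k
        split_ifs
        · exact le_rfl
        · exact (hB0 k).le) (by
      intro k
      by_cases hk : k = l
      · rw [if_pos hk, if_pos hk, if_pos hk, hk, hBl]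
        have : 3 * (1 / X * (1 * 1)) * X = 3 := by field_simp
        rw [this]
        norm_num
      · rw [if_neg hk, if_neg hk, if_neg hk]
        linarith [(hB1 k).1])
    have h3 : (F.card : ℝ) ≤ 6 ^ n * X ^ ((n : ℝ) - 1 - κ) := by
      refine (hc.trans hc2).trans ?_
      rw [hTB]
      have e1 : X ^ ((n : ℝ) - κ) = X ^ ((n : ℝ) - 1 - κ) * X := by
        have : (n : ℝ) - κ = ((n : ℝ) - 1 - κ) + 1 := by ring
        rw [this, Real.rpow_add hX0, Real.rpow_one]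
      rw [e1]
      have e2 : 3 ^ n * (1 / X * (1 * 1)) * (2 ^ n * T * (X ^ ((n : ℝ) - 1 - κ) * X)) =
          6 ^ n * X ^ ((n : ℝ) - 1 - κ) * T := by
        have : (6 : ℝ) ^ n = 3 ^ n * 2 ^ n := by rw [← mul_pow]; norm_num
        rw [this]
        field_simp
      rw [e2]
      calc 6 ^ n * X ^ ((n : ℝ) - 1 - κ) * T ≤ 6 ^ n * X ^ ((n : ℝ) - 1 - κ) * 1 :=
            mul_le_mul_of_nonneg_left hT1.le (by positivity)
        _ = _ := mul_one _
    have h4 : (6 : ℝ) ^ n * X ^ ((n : ℝ) - 1 - κ) ≤ 6 ^ n * EA :=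
      mul_le_mul_of_nonneg_left hXE (by positivity)
    have h5 : 0 ≤ EA := hE0.le.trans hXE
    linarith
  · -- the gain
    have hred : ∀ x ∈ F, ∃ D : Fin n → ℕ, (∀ i, (D i : ℤ) ∣ x i) ∧ Tp Δ D ∧ Sq D ∧ T ≤ gn D ∧
        ∀ p : ℕ, p.Prime → p ∣ pr D → gn D / p < T := by
      intro x hx
      obtain ⟨-, hx0, hTp, -, hxB, hrr⟩ := hF x hx
      have hgn : T ≤ gn (ab x) := by
        unfold gn
        rw [pr_ab, le_div_iff₀ (rr_pos _)]
        have e1 : T * rr (ab x) ≤ T * X ^ ((n : ℝ) - κ) :=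
          mul_le_mul_of_nonneg_left hrr hT0.le
        have e2 : T * X ^ ((n : ℝ) - κ) = ∏ k, (B k / 2) := by
          rw [Finset.prod_div_distrib, Finset.prod_const, Finset.card_univ, Fintype.card_fin, hTB]
          field_simp
        rw [e2] at e1
        refine e1.trans ?_
        apply Finset.prod_le_prod (fun k _ => by have := hB0 k; positivity)
        intro k _
        exact (hxB k).1.le
      obtain ⟨D, g1, g2, g3, g4, g5⟩ := h1 n Δ r t hcx (ab x) T hTp hT1 hgn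
      exact ⟨D, fun i => Int.natCast_dvd.2 (g1 i), g2, g3, g4, g5⟩
    set FA := F.filter (fun x => ∃ D : Fin n → ℕ, (∀ i, (D i : ℤ) ∣ x i) ∧ Tp Δ D ∧ Sq D ∧
      T ≤ gn D ∧ gn D ≤ T * X ^ η) with hFA
    set FB := F.filter (fun x => ∃ D : Fin n → ℕ, (∀ i, (D i : ℤ) ∣ x i) ∧ Tp Δ D ∧ Sq D ∧
      T * X ^ η < gn D ∧ ∀ p : ℕ, p.Prime → p ∣ pr D → gn D / p < T) with hFB
    have hcov : F ⊆ FA ∪ FB := by
      intro x hx
      obtain ⟨D, g1, g2, g3, g4, g5⟩ := hred x hx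
      rw [Finset.mem_union]
      rcases le_or_gt (gn D) (T * X ^ η) with h | h
      · left
        exact Finset.mem_filter.2 ⟨hx, D, g1, g2, g3, g4, h⟩
      · right
        exact Finset.mem_filter.2 ⟨hx, D, g1, g2, g3, h, g5⟩
    have hcA : (FA.card : ℝ) ≤ EA := by
      apply hA T B l FA hT1 hTX hB1 hBl hTB
      intro x hx
      obtain ⟨hxF, hD⟩ := Finset.mem_filter.1 hx
      obtain ⟨g1, g2, -, -, g3, -⟩ := hF x hxF
      exact ⟨g1, fun k => ⟨g2 k, (g3 k).2⟩, hD⟩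
    have hcB : (FB.card : ℝ) ≤ X ^ ((n : ℝ) - 1 - κ) := by
      apply hB T B l FB hT1 hTX hB1 hBl hTB
      intro x hx
      obtain ⟨hxF, hD⟩ := Finset.mem_filter.1 hx
      obtain ⟨g1, -, -, g2, g3, -⟩ := hF x hxF
      obtain ⟨D, d1, d2, d3⟩ := hD
      exact ⟨g1, g2, g3, D, d1, tp_mono hcx d2, d3⟩
    have h6 : (F.card : ℝ) ≤ FA.card + FB.card := by
      exact_mod_cast (Finset.card_le_card hcov).trans (Finset.card_union_le _ _)
    have h7 : 0 ≤ 6 ^ n * EA := by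
      have := hE0.le.trans hXE
      positivity
    linarith

/-- UP, the upper bound -/
theorem up (h1 : S_RED) (h2 : C_UPA) (h3 : S_UPB) : C_UP := by
  classical
  intro n r t Δ κ ε hcx hrn hκ hκ3 hε
  have hr : 1 ≤ r := hcx.1
  obtain ⟨Xa, hXa3, ha⟩ := h2 n r t Δ κ (1 / 6) (ε / 2) hcx hrn hκ (by norm_num) (by linarith)
    (by positivity)
  obtain ⟨Xb, hXb3, hb⟩ := h3 n r κ (1 / 6) hr hrn hκ hκ3 (by norm_num)
  have hcst : 0 < cst r t := cst_pos _ _ hr hcx.2.1
  set CN : ℝ := 6 ^ n + 3 ^ n * (6 ^ n + 2) with hCN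
  have hCN0 : 0 < CN := by positivity
  have has := asym (Real.log CN) κ (ε / 2 * cst r t) n r hr hκ (by positivity)
  obtain ⟨Xc, hXc⟩ := eventually_atTop.mp has
  refine ⟨max (max Xa Xb) (max Xc 31), by
    have := le_max_left Xa Xb
    have := le_max_left (max Xa Xb) (max Xc 31)
    linarith, ?_⟩
  intro X F hX hF
  have hXa : Xa ≤ X := ((le_max_left _ _).trans (le_max_left _ _)).trans hX
  have hXb : Xb ≤ X := ((le_max_right _ _).trans (le_max_left _ _)).trans hX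
  have hXc' : Xc ≤ X := ((le_max_left _ _).trans (le_max_right _ _)).trans hX
  have hX31 : (31 : ℝ) ≤ X := ((le_max_right _ _).trans (le_max_right _ _)).trans hX
  have has' := hXc X hXc'
  have hX0 : 0 < X := by linarith
  have hX1 : 1 ≤ X := by linarith
  have hlogX : 1 ≤ Real.log X := by
    rw [Real.le_log_iff_exp_le hX0]
    have := Real.exp_one_lt_d9
    linarith
  set S : ℝ := (κ * Real.log X / Real.log (Real.log X)) ^ ((r : ℝ) / (r + 1)) with hS
  have hS0 : 0 ≤ S := by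
    rw [hS]
    apply Real.rpow_nonneg
    apply div_nonneg (by positivity)
    exact Real.log_nonneg hlogX
  set EA : ℝ := Real.exp (((n : ℝ) - 1 - κ) * Real.log X + (1 + ε / 2) * cst r t * S)
    with hEA
  have hEA0 : 0 < EA := Real.exp_pos _
  have hXE : X ^ ((n : ℝ) - 1 - κ) ≤ EA := by
    rw [Real.rpow_def_of_pos hX0, hEA]
    apply Real.exp_le_exp.mpr
    have : 0 ≤ (1 + ε / 2) * cst r t * S := by positivity
    linarith
  -- the tuples with a vanishing subsum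
  set FV := F.filter (fun x => ¬ NV x) with hFV
  have hcV : (FV.card : ℝ) ≤ 6 ^ n * EA := by
    have h := card_V n X hX1 FV (by
      intro x hx
      obtain ⟨hxF, hN⟩ := Finset.mem_filter.1 hx
      exact ⟨(hF x hxF).1, (hF x hxF).2.2.2.1, hN⟩)
    have e1 : X ^ ((n : ℝ) - 2) ≤ X ^ ((n : ℝ) - 1 - κ) :=
      Real.rpow_le_rpow_of_exponent_le hX1 (by linarith)
    calc (FV.card : ℝ) ≤ 2 ^ n * (3 ^ n * X ^ ((n : ℝ) - 2)) := h
      _ = 6 ^ n * X ^ ((n : ℝ) - 2) := by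
          have : (6 : ℝ) ^ n = 2 ^ n * 3 ^ n := by rw [← mul_pow]; norm_num
          rw [this, mul_assoc]
      _ ≤ 6 ^ n * EA := mul_le_mul_of_nonneg_left (e1.trans hXE) (by positivity)
  -- the boxes
  set G : (Fin n → ℕ) → Finset (Fin n → ℤ) := fun e => F.filter (fun x => NV x ∧
    ∀ k, X / 2 ^ (e k) / 2 < |(x k : ℝ)| ∧ |(x k : ℝ)| ≤ X / 2 ^ (e k)) with hG
  have hGc : ∀ e, ((G e).card : ℝ) ≤ (6 ^ n + 2) * EA := by
    intro e
    rcases (G e).eq_empty_or_nonempty with h0 | ⟨x0, hx0⟩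
    · rw [h0, Finset.card_empty, Nat.cast_zero]
      positivity
    obtain ⟨hx0F, hN0, hx0B⟩ := Finset.mem_filter.1 hx0
    obtain ⟨-, hne, -, -, ⟨l, hl⟩, -⟩ := hF x0 hx0F
    have hel : e l = 0 := by
      by_contra hcon
      have h5 : X / 2 ^ (e l) ≤ X / 2 := by
        apply div_le_div_of_nonneg_left hX0.le (by norm_num)
        calc (2 : ℝ) = 2 ^ 1 := (pow_one _).symm
          _ ≤ 2 ^ (e l) := pow_le_pow_right₀ (by norm_num) (by omega)
      linarith [(hx0B l).2]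
    apply box_le h1 n r t Δ hcx κ (1 / 6) hrn hκ X EA hX1 hXE
      (fun T B l F g1 g2 g3 g4 g5 g6 => ha X T B l F hXa g1 g2 g3 g4 g5 g6)
      (fun T B l F g1 g2 g3 g4 g5 g6 => hb X T B l F hXb g1 g2 g3 g4 g5 g6)
      (fun k => X / 2 ^ (e k)) l
    · intro k
      constructor
      · refine le_trans ?_ (hx0B k).2
        have := Int.one_le_abs (hne k)
        exact_mod_cast this
      · exact div_le_self hX0.le (one_le_pow₀ (by norm_num))
    · rw [hel]
      simp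
    · intro x hx
      obtain ⟨hxF, hN, hxB⟩ := Finset.mem_filter.1 hx
      obtain ⟨g1, g2, g3, g4, g5, g6⟩ := hF x hxF
      exact ⟨g1, g2, g3, hN, hxB, g6⟩
  set K : ℕ := ⌊2 * Real.log X⌋₊ with hK
  have hKle : (K : ℝ) ≤ 2 * Real.log X := Nat.floor_le (by positivity)
  have hcov : F ⊆ FV ∪ (Fintype.piFinset (fun _ : Fin n => range (K + 1))).biUnion G := by
    intro x hx
    rw [Finset.mem_union]
    by_cases hN : NV x
    · right
      obtain ⟨g1, g2, g3, g4, g5, g6⟩ := hF x hx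
      have hex : ∀ k, ∃ m : ℕ, (2 : ℝ) ^ m ≤ X / |(x k : ℝ)| ∧ X / |(x k : ℝ)| < 2 ^ (m + 1) := by
        intro k
        have hk1 : (1 : ℝ) ≤ |(x k : ℝ)| := by
          have := Int.one_le_abs (g2 k)
          exact_mod_cast this
        exact exists_nat_pow_near (by rw [le_div_iff₀ (by linarith)]; linarith [g4 k]) (by norm_num)
      choose e he using hex
      rw [Finset.mem_biUnion]
      refine ⟨e, ?_, ?_⟩
      · rw [Fintype.mem_piFinset]
        intro k
        have hk1 : (1 : ℝ) ≤ |(x k : ℝ)| := by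
          have := Int.one_le_abs (g2 k)
          exact_mod_cast this
        rw [Finset.mem_range, Nat.lt_succ_iff, hK]
        apply Nat.le_floor
        have h5 : (2 : ℝ) ^ (e k) ≤ X := (he k).1.trans (div_le_self hX0.le hk1)
        have h6 : Real.log ((2 : ℝ) ^ (e k)) ≤ Real.log X := Real.log_le_log (by positivity) h5
        rw [Real.log_pow] at h6
        have h8 := Real.log_two_gt_d9
        have h9 : (0 : ℝ) ≤ e k := Nat.cast_nonneg _
        nlinarith
      · refine Finset.mem_filter.2 ⟨hx, hN, fun k => ?_⟩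
        have hk1 : (1 : ℝ) ≤ |(x k : ℝ)| := by
          have := Int.one_le_abs (g2 k)
          exact_mod_cast this
        have hk0 : (0 : ℝ) < |(x k : ℝ)| := by linarith
        have h2k : (0 : ℝ) < 2 ^ (e k) := by positivity
        obtain ⟨he1, he2⟩ := he k
        rw [le_div_iff₀ hk0] at he1
        rw [div_lt_iff₀ hk0] at he2
        constructor
        · rw [div_div, div_lt_iff₀ (by positivity)]
          calc X < 2 ^ (e k + 1) * |(x k : ℝ)| := he2
            _ = |(x k : ℝ)| * (2 ^ (e k) * 2) := by ring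
        · rw [le_div_iff₀ h2k]
          linarith
    · left
      exact Finset.mem_filter.2 ⟨hx, hN⟩
  have hc2 : (((Fintype.piFinset (fun _ : Fin n => range (K + 1))).biUnion G).card : ℝ) ≤
      (3 * Real.log X) ^ n * ((6 ^ n + 2) * EA) := by
    calc (((Fintype.piFinset (fun _ : Fin n => range (K + 1))).biUnion G).card : ℝ)
        ≤ ((∑ e ∈ Fintype.piFinset (fun _ : Fin n => range (K + 1)), (G e).card : ℕ) : ℝ) := by
          exact_mod_cast Finset.card_biUnion_le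
      _ = ∑ e ∈ Fintype.piFinset (fun _ : Fin n => range (K + 1)), ((G e).card : ℝ) := by
          push_cast; rfl
      _ ≤ ∑ e ∈ Fintype.piFinset (fun _ : Fin n => range (K + 1)), (6 ^ n + 2) * EA :=
          Finset.sum_le_sum (fun e _ => hGc e)
      _ = ((K : ℝ) + 1) ^ n * ((6 ^ n + 2) * EA) := by
          rw [Finset.sum_const, Fintype.card_piFinset, Finset.prod_const, Finset.card_range,
            Finset.card_univ, Fintype.card_fin, nsmul_eq_mul]
          push_cast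
          ring
      _ ≤ _ := by
          apply mul_le_mul_of_nonneg_right _ (by positivity)
          apply pow_le_pow_left₀ (by positivity)
          linarith
  have hcard : (F.card : ℝ) ≤ FV.card +
      ((Fintype.piFinset (fun _ : Fin n => range (K + 1))).biUnion G).card := by
    exact_mod_cast (Finset.card_le_card hcov).trans (Finset.card_union_le _ _)
  have hln : 1 ≤ (Real.log X) ^ n := one_le_pow₀ hlogX
  have hfin : (F.card : ℝ) ≤ CN * (Real.log X) ^ n * EA := by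
    have e1 : (6 : ℝ) ^ n * EA ≤ 6 ^ n * EA * (Real.log X) ^ n := by
      have : 0 ≤ (6 : ℝ) ^ n * EA := by positivity
      nlinarith
    calc (F.card : ℝ) ≤ 6 ^ n * EA + (3 * Real.log X) ^ n * ((6 ^ n + 2) * EA) := by linarith
      _ ≤ 6 ^ n * EA * (Real.log X) ^ n + (3 * Real.log X) ^ n * ((6 ^ n + 2) * EA) := by linarith
      _ = CN * (Real.log X) ^ n * EA := by
          rw [hCN, mul_pow]
          ring
  have hfe : CN * (Real.log X) ^ n ≤ Real.exp (ε / 2 * cst r t * S) := by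
    rw [← Real.exp_log (show 0 < CN * (Real.log X) ^ n by positivity)]
    apply Real.exp_le_exp.mpr
    rw [Real.log_mul hCN0.ne' (by positivity), Real.log_pow]
    exact has'
  calc (F.card : ℝ) ≤ CN * (Real.log X) ^ n * EA := hfin
    _ ≤ Real.exp (ε / 2 * cst r t * S) * EA := mul_le_mul_of_nonneg_right hfe hEA0.le
    _ = _ := by
        rw [hEA, ← Real.exp_add]
        congr 1
        ring

end Pool.Agent.U189.NT
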