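import Pool.Agent.N521.NT_LO
import Pool.Agent.U189.NT.Lown
import Pool.Agent.U189.NT.Up

/-!
# The lower bound for the tuples of a given type

`Pool.Agent.N521.NT.lo` for an arbitrary simplicial complex `Δ` which contains all the vertices, instead of the complex of
all sets with at most `r` elements.
-/

set_option autoImplicit false

namespace Pool.Agent.U189.NT

open Finset Filter Topology Pool.Agent.N906.NT Pool.Agent.N521.NT

/-- LO for a complex `Δ` with faces of at most `r` elements, `t` of which have `r` elements, containing all the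
vertices -/
def C_LO : Prop := ∀ (n r t : ℕ) (Δ : Finset (Finset (Fin n))) (κ A ε : ℝ), Cx Δ r t → (∀ i, {i} ∈ Δ) → r + 2 ≤ n →
  0 < κ → κ < 1 / 3 → 1 ≤ A →
  0 < ε → ε < 1 → ∃ X₀ : ℝ, 3 < X₀ ∧ ∀ X : ℝ, X₀ ≤ X → ∃ F : Finset (Fin n → ℤ),
    (∀ x ∈ F, ∑ i, x i = 0 ∧ (∀ i, x i ≠ 0) ∧ NV x ∧ Tp Δ (ab x) ∧ (∀ i, |(x i : ℝ)| ≤ X) ∧
      ∃ i, A * (rr (ab x) : ℝ) ≤ |(x i : ℝ)| ^ ((n : ℝ) - κ)) ∧
    Real.exp (((n : ℝ) - 1 - κ) * Real.log X +
      (1 - ε) * cst r t *
        (κ * Real.log X / Real.log (Real.log X)) ^ ((r : ℝ) / (r + 1))) ≤ F.card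

theorem lo (h1 : S_WINN) (h2 : C_LOWN) : C_LO := by
  classical
  intro n r t Δ κ A ε hcx hvx hn hκ hκ3 hA hε hε1
  have hr : 1 ≤ r := hcx.1
  obtain ⟨c₁, c, C₀, hc₁, hc, hC₀, H2⟩ := h2 n r hr hn
  set e : ℝ := min (ε / 2) (1 / 8) with he
  have he0 : 0 < e := by positivity
  have he1 : e ≤ ε / 2 := min_le_left _ _
  have he2 : e ≤ 1 / 8 := min_le_right _ _
  obtain ⟨Z₀, hZ₀, H1⟩ := h1 n Δ r t e c₁ hcx he0 (by linarith) hc₁
  have hn0 : (1 : ℝ) ≤ n := by exact_mod_cast (by omega : 1 ≤ n)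
  set K : ℝ := A * (n : ℝ) ^ n with hK
  have hK1 : 1 ≤ K := one_le_mul_of_one_le_of_one_le hA (one_le_pow₀ hn0)
  have hlK : 0 ≤ Real.log K := Real.log_nonneg hK1
  set ρ : ℝ := (r : ℝ) / (r + 1) with hρdef
  have hr0 : (0 : ℝ) < r := by exact_mod_cast hr
  have hρ : 0 < ρ := by positivity
  have hcst := cst_pos hr hcx.2.1
  -- the conditions on `L = log X`
  have ev : ∀ᶠ L : ℝ in atTop, Z₀ ≤ κ * L ∧ C₀ ^ 2 ≤ κ * L ∧ (1 / e) ^ 2 ≤ κ * L ∧
      Real.log (9 * C₀) + 5 / 2 * Real.log K ≤ 1 / 6 * L ∧ Real.exp 1 ≤ κ * L ∧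
      (Real.log 3 + Real.log K - Real.log c) / (ε / 2 * cst r t) ≤
        (κ * L / Real.log L) ^ ρ ∧ 2 ≤ L := by
    have t1 : Tendsto (fun L : ℝ => κ * L) atTop atTop := tendsto_id.const_mul_atTop hκ
    have t2 : Tendsto (fun L : ℝ => 1 / 6 * L) atTop atTop :=
      tendsto_id.const_mul_atTop (by norm_num)
    exact (t1.eventually_ge_atTop _).and ((t1.eventually_ge_atTop _).and
      ((t1.eventually_ge_atTop _).and ((t2.eventually_ge_atTop _).and
      ((t1.eventually_ge_atTop _).and (((tend_W hκ hρ).eventually_ge_atTop _).and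
      (eventually_ge_atTop 2))))))
  obtain ⟨L₀, hL₀⟩ := eventually_atTop.1 ev
  refine ⟨max 4 (Real.exp L₀), by have := le_max_left 4 (Real.exp L₀); linarith, fun X hX => ?_⟩
  have hX4 : 4 ≤ X := (le_max_left _ _).trans hX
  have hX0 : 0 < X := by linarith
  set L := Real.log X with hL
  have hLL : L₀ ≤ L := by
    rw [hL, Real.le_log_iff_exp_le hX0]
    exact (le_max_right _ _).trans hX
  obtain ⟨q1, q2, q3, q4, q5, q6, q7⟩ := hL₀ L hLL
  set T : ℝ := K * X ^ κ with hT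
  have hXκ : X ^ κ = Real.exp (κ * L) := by
    rw [Real.rpow_def_of_pos hX0, mul_comm]
  have hXκ1 : 1 ≤ X ^ κ := Real.one_le_rpow (by linarith) hκ.le
  have hT1 : 1 ≤ T := one_le_mul_of_one_le_of_one_le hK1 hXκ1
  have hT0 : 0 < T := by linarith
  set Z : ℝ := Real.log T with hZ
  have hZe : Z = Real.log K + κ * L := by
    rw [hZ, hT, Real.log_mul (by linarith) (by linarith), hXκ, Real.log_exp]
  have hZκ : κ * L ≤ Z := by linarith
  have hTZ : T = Real.exp Z := (Real.exp_log hT0).symm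
  have hZ0 : 0 < Z := by linarith
  obtain ⟨F0, HF, Hsum⟩ := H1 Z (by linarith)
  have hz : C₀ ≤ √Z := Real.le_sqrt_of_sq_le (by linarith)
  set P : ℝ := Real.exp (e * Z) with hP
  have hzP : √Z ≤ P := by
    have a1 : 1 / e ≤ √Z := Real.le_sqrt_of_sq_le (by linarith)
    have a2 : √Z * √Z = Z := Real.mul_self_sqrt hZ0.le
    have a3 : e * Z + 1 ≤ P := Real.add_one_le_exp _
    have a4 : 1 ≤ e * √Z := by
      rw [div_le_iff₀ he0] at a1
      linarith
    have a5 : √Z ≤ e * Z := by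
      calc √Z = 1 * √Z := by ring
        _ ≤ e * √Z * √Z := by gcongr
        _ = e * (√Z * √Z) := by ring
        _ = e * Z := by rw [a2]
    linarith
  have hrr : ∀ D ∈ F0, (rr D : ℝ) ≤ P := by
    intro D hD
    have h := (HF D hD).2.2.2.2.1
    have h0 : (0 : ℝ) < rr D := by exact_mod_cast rr_pos D
    rwa [Real.log_le_iff_le_exp h0] at h
  have hpf : ∀ D ∈ F0, ∀ p ∈ (pr D).primeFactors, √Z < (p : ℝ) ∧ (p : ℝ) ≤ P := by
    intro D hD p hp
    refine ⟨(HF D hD).2.2.1 p hp, le_trans ?_ (hrr D hD)⟩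
    exact_mod_cast le_rr hp
  have hmain : ∀ D ∈ F0, ∃ (j : ℕ) (F : Finset (Fin n → ℤ)),
      T ≤ 3 ^ j * gn D ∧ 3 ^ j * gn D ≤ 3 * T ∧
      (∀ x ∈ F, ∑ i, x i = 0 ∧ (∀ i, x i ≠ 0) ∧ NV x ∧
      (∀ p : ℕ, p.Prime → (univ.filter fun i => p ∣ ab x i) = (univ.filter fun i => p ∣ D i) ∨
        (univ.filter fun i => p ∣ ab x i).card ≤ 1) ∧ (∀ i, |(x i : ℝ)| ≤ X) ∧
      (∃ i, X / n ≤ |(x i : ℝ)|) ∧
      (3 : ℝ) ^ j * gn D ≤ gn (ab x) ∧
      ∀ p : ℕ, p.Prime → √Z < (p : ℝ) → (p : ℝ) ≤ P →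
        (p ∣ pr D → ∀ i, (x i).natAbs.factorization p = (D i).factorization p) ∧
        (¬ p ∣ pr D → ∑ i, (x i).natAbs.factorization p ≤ 1)) ∧
      c * X ^ (n - 1) / ((3 : ℝ) ^ j * pr D) ≤ F.card := by
    intro D hD
    obtain ⟨b1, b2, b3, b4, b5, b6⟩ := HF D hD
    have hg := gn_pos b1.1
    have hgT : gn D ≤ T := by
      rwa [Real.log_le_iff_le_exp hg, ← hTZ] at b4
    obtain ⟨j, hj1, hj2⟩ := exists_j hg hgT
    have hpr : (3 : ℝ) ^ j * pr D ≤ 3 * T * P := by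
      rw [← gn_mul D, ← mul_assoc]
      exact mul_le_mul hj2 (hrr D hD) (by positivity) (by positivity)
    have hXX : C₀ * ((3 : ℝ) ^ j * pr D) ^ 2 * P ^ 2 ≤ X := by
      have hp0 : (0 : ℝ) ≤ (3 : ℝ) ^ j * pr D := by positivity
      calc C₀ * ((3 : ℝ) ^ j * pr D) ^ 2 * P ^ 2 ≤ C₀ * (3 * T * P) ^ 2 * P ^ 2 := by gcongr
        _ = 9 * C₀ * (T ^ 2 * P ^ 4) := by ring
        _ = Real.exp (Real.log (9 * C₀) + (2 * Z + 4 * (e * Z))) := by
            rw [Real.exp_add, Real.exp_log (by linarith), Real.exp_add, hTZ, hP]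
            rw [← Real.exp_nat_mul, ← Real.exp_nat_mul]
            norm_num
        _ ≤ Real.exp L := by
            apply Real.exp_le_exp.2
            have a1 : e * Z ≤ 1 / 8 * Z := by gcongr
            have a2 : κ * L ≤ 1 / 3 * L := by
              have : 0 ≤ L := by linarith
              gcongr
            linarith
        _ = X := Real.exp_log hX0
    obtain ⟨F, hF1, hF2⟩ := H2 X (√Z) P j D (tp_mono hcx b1) b2 hz (hpf D hD) hzP b6 hXX
    exact ⟨j, F, hj1, hj2, hF1, hF2⟩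
  choose! j F G1 G2 G3 G4 using hmain
  refine ⟨F0.biUnion F, ?_, ?_⟩
  · intro x hx
    obtain ⟨D, hD, hxD⟩ := mem_biUnion.1 hx
    obtain ⟨g1, g2, g3, g4, g5, g6, g7, g8⟩ := G3 D hD x hxD
    refine ⟨g1, g2, g3, ⟨fun i => Int.natAbs_pos.2 (g2 i), fun p hp => ?_⟩, g5, ?_⟩
    · rcases g4 p hp with h | h
      · rw [h]
        exact (HF D hD).1.2 p hp
      · haveI : Nonempty (Fin n) := ⟨⟨0, by omega⟩⟩
        rcases Finset.card_le_one_iff_subset_singleton.1 h with ⟨i, hi⟩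
        exact hcx.2.2.2.1 _ (hvx i) _ hi
    obtain ⟨i, hi⟩ := g6
    refine ⟨i, ?_⟩
    have hn1 : (0 : ℝ) < n := by linarith
    -- `rr (ab x) ≤ X ^ n / T`
    have a1 : T ≤ gn (ab x) := (G1 D hD).trans g7
    have a2 : (pr (ab x) : ℝ) ≤ X ^ n := by
      unfold pr
      push_cast
      calc ∏ k, ((ab x k : ℕ) : ℝ) ≤ ∏ _k : Fin n, X := by
            refine prod_le_prod (fun _ _ => by positivity) fun k _ => ?_
            have := g5 k
            unfold ab
            rwa [Nat.cast_natAbs, Int.cast_abs]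
        _ = X ^ n := by simp
    have a3 : T * rr (ab x) ≤ X ^ n := by
      have := gn_mul (ab x)
      calc T * (rr (ab x) : ℝ) ≤ gn (ab x) * rr (ab x) := by gcongr
        _ = pr (ab x) := this
        _ ≤ X ^ n := a2
    have a4 : A * (rr (ab x) : ℝ) ≤ (X / n) ^ ((n : ℝ) - κ) := by
      have b1 : (X / n) ^ ((n : ℝ) - κ) = X ^ n / X ^ κ / ((n : ℝ) ^ n / (n : ℝ) ^ κ) := by
        rw [Real.div_rpow hX0.le hn1.le, Real.rpow_sub hX0, Real.rpow_sub hn1, Real.rpow_natCast,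
          Real.rpow_natCast]
      have b2 : (n : ℝ) ^ n / (n : ℝ) ^ κ ≤ (n : ℝ) ^ n :=
        div_le_self (by positivity) (Real.one_le_rpow hn0 hκ.le)
      rw [b1]
      calc A * (rr (ab x) : ℝ) ≤ X ^ n / X ^ κ / (n : ℝ) ^ n := by
            rw [div_div, le_div_iff₀ (by positivity)]
            calc A * (rr (ab x) : ℝ) * (X ^ κ * (n : ℝ) ^ n) = T * rr (ab x) := by
                  rw [hT, hK]
                  ring
              _ ≤ X ^ n := a3
        _ ≤ X ^ n / X ^ κ / ((n : ℝ) ^ n / (n : ℝ) ^ κ) := by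
            gcongr
    refine a4.trans (Real.rpow_le_rpow (by positivity) hi ?_)
    linarith
  · have hdisj : ∀ D ∈ F0, ∀ D' ∈ F0, D ≠ D' → Disjoint (F D) (F D') := by
      intro D hD D' hD' hne
      rw [Finset.disjoint_left]
      intro x hx hx'
      refine hne (D_eq (x := ab x) (HF D hD).1 (HF D' hD').1 (HF D hD).2.1 (HF D' hD').2.1
        (hpf D hD) (hpf D' hD') ?_ ?_)
      · exact (G3 D hD x hx).2.2.2.2.2.2.2
      · exact (G3 D' hD' x hx').2.2.2.2.2.2.2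
    rw [card_biUnion hdisj]
    push_cast
    have b1 : ∀ D ∈ F0, c * X ^ (n - 1) / (3 * T) * (1 / (rr D : ℝ)) ≤ ((F D).card : ℝ) := by
      intro D hD
      refine le_trans ?_ (G4 D hD)
      have h0 : (0 : ℝ) < rr D := by exact_mod_cast rr_pos D
      have h3 : (0 : ℝ) < pr D := by exact_mod_cast pr_pos (HF D hD).1.1
      rw [← gn_mul D] at h3 ⊢
      have h4 := G2 D hD
      have h5 : 0 < gn D := gn_pos (HF D hD).1.1
      have h6 : (3 : ℝ) ^ j D * (gn D * rr D) = 3 ^ j D * gn D * rr D := by ring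
      rw [div_mul_div_comm, mul_one, h6]
      gcongr
    refine le_trans ?_ (sum_le_sum b1)
    rw [← mul_sum]
    refine le_trans ?_ (mul_le_mul_of_nonneg_left Hsum (by positivity))
    have b2 : c * X ^ (n - 1) / (3 * T) =
        Real.exp (Real.log c + ((n : ℝ) - 1) * L - Real.log 3 - Z) := by
      rw [Real.exp_sub, Real.exp_sub, Real.exp_add, Real.exp_log hc, Real.exp_log (by norm_num),
        ← hTZ, div_div]
      congr 2
      have h5 : ((n : ℝ) - 1) * L = ((n - 1 : ℕ) : ℝ) * L := by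
        rw [Nat.cast_sub (by omega)]
        simp
      rw [h5, Real.exp_nat_mul, Real.exp_log hX0]
    rw [b2, ← Real.exp_add]
    apply Real.exp_le_exp.2
    have b3 := W_mono hκ (by linarith : κ < 1) hρ q5 hZκ
    have b4 : 0 ≤ (κ * L / Real.log L) ^ ρ := by
      have : 0 < Real.log L := Real.log_pos (by linarith)
      have : 0 < κ * L := by linarith
      positivity
    rw [div_le_iff₀ (by positivity)] at q6
    set W := (κ * L / Real.log L) ^ ρ
    set W' := (Z / Real.log Z) ^ ρ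
    have b5 : (1 - e) * cst r t * W ≤ (1 - e) * cst r t * W' := by
      have : 0 < 1 - e := by linarith
      gcongr
    have b6 : (1 - ε / 2) * cst r t * W ≤ (1 - e) * cst r t * W := by
      gcongr
    have b7 : (1 - ε / 2) * cst r t * W = (1 - ε) * cst r t * W +
        W * (ε / 2 * cst r t) := by ring
    linarith

end Pool.Agent.U189.NT
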