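import Pool.Agent.N906.NT.Lim
import Pool.Agent.U189.NT.Up
import Pool.Agent.U189.NT.Lo

/-!
# The limits for the tuples of a given type

`Pool.Agent.N906.NT.limit` for an arbitrary simplicial complex `Δ`.
-/

set_option autoImplicit false

namespace Pool.Agent.U189.NT

open Finset Filter Topology Pool.Agent.N906.NT

/-- the upper bound -/
theorem upper (hU : C_UP) {n r t : ℕ} {Δ : Finset (Finset (Fin n))} (hcx : Cx Δ r t) (hrn : r + 2 ≤ n) {M κ : ℝ} (hM : 0 < M)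
    (hκ : κ = n - 1 / M) (hκ0 : 0 < κ) (hκ1 : κ < 1 / 3) (P : (Fin n → ℤ) → Prop)
    (hP : ∀ x, P x → ∑ i, x i = 0 ∧ (∀ i, x i ≠ 0) ∧ Tp Δ (ab x)) (ε : ℝ) (hε : 0 < ε) :
    ∀ᶠ L : ℝ in atTop, ((VV P M (Real.exp L)).ncard : ℝ) ≤
      Real.exp ((1 / M - 1) * L + (cst r t * κ ^ ((r : ℝ) / (r + 1)) + ε) *
        Gs ((r : ℝ) / (r + 1)) L) := by
  classical
  have hr : 1 ≤ r := hcx.1
  have hn3 : 3 ≤ n := by omega
  have hn0 : 0 < n := by omega
  have hr0 : (0 : ℝ) < r := by exact_mod_cast hr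
  obtain ⟨ρ, hρ⟩ : ∃ ρ : ℝ, ρ = (r : ℝ) / (r + 1) := ⟨_, rfl⟩
  have hρ0 : 0 < ρ := by rw [hρ]; positivity
  rw [← hρ]
  obtain ⟨c, hc⟩ : ∃ c : ℝ, c = cst r t * κ ^ ρ := ⟨_, rfl⟩
  rw [← hc]
  have hc0 : 0 ≤ c := by
    rw [hc]; unfold cst; positivity
  obtain ⟨e, he⟩ : ∃ e : ℝ, e = 1 / M - 1 := ⟨_, rfl⟩
  rw [← he]
  have hen : e = (n : ℝ) - 1 - κ := by rw [he, hκ]; ring
  have hn3' : (3 : ℝ) ≤ n := by exact_mod_cast hn3
  have he1 : (n : ℝ) / 2 + 1 / 6 < e := by rw [hen]; linarith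
  have he0 : 0 < e := by linarith
  -- the small epsilon
  obtain ⟨ε', hε'⟩ : ∃ ε' : ℝ, ε' = ε / (2 * (c + 1)) := ⟨_, rfl⟩
  have hε'0 : 0 < ε' := by rw [hε']; positivity
  have hε'c : ε' * c ≤ ε / 2 := by
    rw [hε', div_mul_eq_mul_div, div_le_div_iff₀ (by positivity) (by norm_num)]
    nlinarith
  obtain ⟨X₀, hX₀, hup⟩ := hU n r t Δ κ ε' hcx hrn hκ0 hκ1 hε'0
  have hlog := log_small hρ0
  have h4 : ∀ᶠ L : ℝ in atTop, Real.log L / Gs ρ L < ε / 8 :=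
    hlog.eventually (gt_mem_nhds (by positivity))
  have hGt : ∀ᶠ L : ℝ in atTop, 8 * Real.log 6 / ε ≤ Gs ρ L := (Gs_tendsto hρ0).eventually_ge_atTop _
  have hlin : ∀ᶠ L : ℝ in atTop, (n : ℝ) * Real.log 3 * 6 ≤ L := eventually_ge_atTop _
  filter_upwards [h4, hGt, hlin, eventually_ge_atTop (2 * Real.log X₀),
    eventually_ge_atTop (2 * Real.exp 1), eventually_gt_atTop 2] with L g1 g2 g3 g4 g5 g6
  have hL1 : 1 < L := by linarith
  have hG := Gs_pos (ρ := ρ) hL1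
  obtain ⟨X, hX⟩ : ∃ X : ℝ, X = Real.exp L := ⟨_, rfl⟩
  have hX0 : 0 < X := by rw [hX]; exact Real.exp_pos _
  have hlX : Real.log X = L := by rw [hX, Real.log_exp]
  obtain ⟨Y, hY⟩ : ∃ Y : ℝ, Y = Real.exp (L / 2) := ⟨_, rfl⟩
  have hY0 : 0 < Y := by rw [hY]; exact Real.exp_pos _
  have hYX : Y * Y = X := by rw [hY, hX, ← Real.exp_add]; congr 1; ring
  have hlY : Real.log Y = L / 2 := by rw [hY, Real.log_exp]
  have hY1 : 1 ≤ Y := by rw [hY]; exact Real.one_le_exp (by linarith)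
  have hX₀Y : X₀ ≤ Y := by
    rw [hY, ← Real.log_le_iff_le_exp (by linarith)]; linarith
  have hXY : Y ≤ X := by nlinarith
  rw [← hX]
  -- the pieces
  obtain ⟨K, hK⟩ : ∃ K : ℕ, K = ⌈2 * L⌉₊ := ⟨_, rfl⟩
  obtain ⟨W, hW⟩ : ∃ W : ℕ → Finset (Fin n → ℤ), ∀ k, ∀ x, x ∈ W k ↔
      P x ∧ (Ht x : ℝ) ≤ X / 2 ^ k ∧ X / 2 ^ k / 2 < Ht x ∧ Y < X / 2 ^ k ∧
        (rr (ab x) : ℝ) ^ M < Ht x := by
    have : ∀ k, ∃ W : Finset (Fin n → ℤ), ∀ x, x ∈ W ↔
      P x ∧ (Ht x : ℝ) ≤ X / 2 ^ k ∧ X / 2 ^ k / 2 < Ht x ∧ Y < X / 2 ^ k ∧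
        (rr (ab x) : ℝ) ^ M < Ht x := by
      intro k
      have hfin : {x : Fin n → ℤ | P x ∧ (Ht x : ℝ) ≤ X / 2 ^ k ∧ X / 2 ^ k / 2 < Ht x ∧
          Y < X / 2 ^ k ∧ (rr (ab x) : ℝ) ^ M < Ht x}.Finite :=
        (VV_fin P M (X / 2 ^ k)).subset fun x hx => ⟨hx.1, hx.2.1, hx.2.2.2.2⟩
      exact ⟨hfin.toFinset, fun x => by rw [Set.Finite.mem_toFinset]; rfl⟩
    choose W hW using this
    exact ⟨W, hW⟩
  have hBox := box_card (n := n) Y hY1
  have hsub : VV P M X ⊆ {x : Fin n → ℤ | (Ht x : ℝ) ≤ Y} ∪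
      (((range K).biUnion W : Finset (Fin n → ℤ)) : Set (Fin n → ℤ)) := by
    intro x hx
    obtain ⟨h1, h2, h3⟩ := hx
    rcases le_or_gt (Ht x : ℝ) Y with h | h
    · exact Or.inl h
    right
    have hH0 : (0 : ℝ) < Ht x := by linarith
    obtain ⟨k, hk1, hk2⟩ := exists_nat_pow_near (x := X / Ht x) (y := 2)
      (by rw [le_div_iff₀ hH0]; linarith) (by norm_num)
    have hk1' : (Ht x : ℝ) ≤ X / 2 ^ k := by
      rw [le_div_iff₀ (by positivity)]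
      rw [le_div_iff₀ hH0] at hk1
      linarith
    have hk2' : X / 2 ^ k / 2 < Ht x := by
      rw [div_div, div_lt_iff₀ (by positivity)]
      rw [div_lt_iff₀ hH0, pow_succ] at hk2
      linarith
    rw [mem_coe, mem_biUnion]
    refine ⟨k, ?_, (hW k x).2 ⟨h1, hk1', hk2', lt_of_lt_of_le h hk1', h3⟩⟩
    rw [mem_range, hK]
    apply Nat.lt_ceil.2
    -- `2 ^ k ≤ X / Ht x < Y`
    have h5 : (2 : ℝ) ^ k < Y := by
      refine lt_of_le_of_lt hk1 ?_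
      rw [div_lt_iff₀ hH0]
      nlinarith
    have h6 := Real.log_lt_log (by positivity) h5
    rw [Real.log_pow, hlY] at h6
    have h7 : (0.69 : ℝ) < Real.log 2 := by have := Real.log_two_gt_d9; linarith
    nlinarith [(Nat.cast_nonneg k : (0 : ℝ) ≤ k)]
  have hcount : ((VV P M X).ncard : ℝ) ≤ (3 * Y) ^ n + ∑ k ∈ range K, ((W k).card : ℝ) := by
    have h1 := Set.ncard_le_ncard hsub (hBox.1.union (Finset.finite_toSet _))
    have h2 := Set.ncard_union_le {x : Fin n → ℤ | (Ht x : ℝ) ≤ Y}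
      (((range K).biUnion W : Finset (Fin n → ℤ)) : Set (Fin n → ℤ))
    rw [Set.ncard_coe_finset] at h2
    have h3 : ((range K).biUnion W).card ≤ ∑ k ∈ range K, (W k).card := card_biUnion_le
    have h4 : ((VV P M X).ncard : ℝ) ≤ ({x : Fin n → ℤ | (Ht x : ℝ) ≤ Y}.ncard : ℝ) +
        ∑ k ∈ range K, ((W k).card : ℝ) := by
      exact_mod_cast h1.trans (h2.trans (by omega))
    linarith [hBox.2]
  -- each piece
  obtain ⟨g, hg⟩ : ∃ g : ℝ, g = e * L + (1 + ε') * c * Gs ρ L := ⟨_, rfl⟩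
  have hpiece : ∀ k ∈ range K, ((W k).card : ℝ) ≤ Real.exp g := by
    intro k _
    rcases (W k).eq_empty_or_nonempty with h0 | ⟨x₀, hx₀⟩
    · rw [h0, card_empty, Nat.cast_zero]
      exact (Real.exp_pos _).le
    obtain ⟨Xk, hXk⟩ : ∃ Xk : ℝ, Xk = X / 2 ^ k := ⟨_, rfl⟩
    have hYk : Y < Xk := by rw [hXk]; exact ((hW k x₀).1 hx₀).2.2.2.1
    have hXk0 : 0 < Xk := by linarith
    have hXkX : Xk ≤ X := by
      rw [hXk]; exact div_le_self hX0.le (one_le_pow₀ (by norm_num))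
    have hb := hup Xk (W k) (by linarith) ?_
    · refine hb.trans (Real.exp_le_exp.2 ?_)
      have h1 : Real.log Xk ≤ L := by rw [← hlX]; exact Real.log_le_log hXk0 hXkX
      have h2 : L / 2 ≤ Real.log Xk := by rw [← hlY]; exact Real.log_le_log hY0 hYk.le
      have h3 : Real.exp 1 ≤ Real.log Xk := by linarith
      have he1' : (1 : ℝ) < Real.exp 1 := by
        have := Real.add_one_lt_exp (show (1 : ℝ) ≠ 0 by norm_num)
        linarith
      have h4 : (κ * Real.log Xk / Real.log (Real.log Xk)) ^ ρ = κ ^ ρ * Gs ρ (Real.log Xk) := by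
        unfold Gs
        rw [mul_div_assoc, Real.mul_rpow hκ0.le]
        exact div_nonneg (by linarith) (Real.log_nonneg (by linarith))
      rw [← hρ, h4, hg, ← hen]
      have h5 : Gs ρ (Real.log Xk) ≤ Gs ρ L := Gs_mono hρ0.le h3 h1
      have h6 : (1 + ε') * cst r t * (κ ^ ρ * Gs ρ (Real.log Xk)) =
          (1 + ε') * c * Gs ρ (Real.log Xk) := by rw [hc]; ring
      rw [h6]
      have h7 : (1 + ε') * c * Gs ρ (Real.log Xk) ≤ (1 + ε') * c * Gs ρ L :=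
        mul_le_mul_of_nonneg_left h5 (by positivity)
      have h8 : e * Real.log Xk ≤ e * L := mul_le_mul_of_nonneg_left h1 he0.le
      linarith
    · intro x hx
      obtain ⟨j1, j2, j3, j4, j5⟩ := (hW k x).1 hx
      obtain ⟨i1, i2, i3⟩ := hP x j1
      refine ⟨i1, i2, i3, fun i => ?_, ?_, ?_⟩
      · rw [hXk]; exact (le_Ht x i).trans j2
      · obtain ⟨i, hi⟩ := exists_Ht hn0 x
        exact ⟨i, by rw [hXk, ← hi]; exact j3⟩
      · have hR : (0 : ℝ) < rr (ab x) := by exact_mod_cast rr_pos _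
        have h1 : (rr (ab x) : ℝ) ^ M ≤ Xk := by rw [hXk]; linarith
        have h2 := Real.rpow_le_rpow (by positivity) h1 (by positivity : (0 : ℝ) ≤ 1 / M)
        rw [← Real.rpow_mul hR.le, mul_one_div_cancel hM.ne', Real.rpow_one] at h2
        have h3 : (1 : ℝ) / M = (n : ℝ) - κ := by rw [hκ]; ring
        rwa [h3] at h2
  have hsum : ∑ k ∈ range K, ((W k).card : ℝ) ≤ K * Real.exp g := by
    have := Finset.sum_le_card_nsmul (range K) _ _ hpiece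
    rwa [card_range, nsmul_eq_mul] at this
  have hKL : (K : ℝ) ≤ 2 * L + 1 := by
    rw [hK]; exact (Nat.ceil_lt_add_one (by linarith)).le
  -- the small heights
  have hsmall : (3 * Y) ^ n ≤ Real.exp g := by
    have h1 : (3 * Y) ^ n = Real.exp (n * Real.log 3 + n * (L / 2)) := by
      rw [mul_pow, hY, Real.exp_add, ← Real.exp_nat_mul, mul_comm (n : ℝ) (Real.log 3),
        ← Real.exp_log (show (0 : ℝ) < 3 by norm_num), ← Real.exp_nat_mul, Real.log_exp]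
      congr 2
      ring
    rw [h1, hg]
    apply Real.exp_le_exp.2
    have h2 : 0 ≤ (1 + ε') * c * Gs ρ L := by positivity
    have h3 : ((n : ℝ) / 2 + 1 / 6) * L ≤ e * L := mul_le_mul_of_nonneg_right he1.le (by linarith)
    have h4 : (n : ℝ) * Real.log 3 ≤ L / 6 := by linarith
    nlinarith
  have hfinal : ((VV P M X).ncard : ℝ) ≤ (3 * L) * Real.exp g := by
    have h1 : 0 < Real.exp g := Real.exp_pos _
    have h2 : (K : ℝ) * Real.exp g ≤ (2 * L + 1) * Real.exp g := mul_le_mul_of_nonneg_right hKL h1.le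
    have h3 : (2 * L + 1) * Real.exp g + Real.exp g ≤ 3 * L * Real.exp g := by nlinarith
    linarith
  refine hfinal.trans ?_
  rw [← Real.exp_log (show (0 : ℝ) < 3 * L by linarith), ← Real.exp_add]
  apply Real.exp_le_exp.2
  rw [hg, Real.log_mul (by norm_num) (by linarith)]
  have k1 : Real.log L ≤ ε / 8 * Gs ρ L := by
    rw [div_lt_iff₀ hG] at g1
    exact g1.le
  have k2 : Real.log 3 ≤ ε / 8 * Gs ρ L := by
    have h1 : Real.log 3 ≤ Real.log 6 := Real.log_le_log (by norm_num) (by norm_num)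
    rw [div_le_iff₀ hε] at g2
    linarith
  have k3 : (1 + ε') * c * Gs ρ L ≤ (c + ε / 2) * Gs ρ L := by
    apply mul_le_mul_of_nonneg_right _ hG.le
    linarith
  nlinarith [mul_pos hε hG]

/-- the lower bound -/
theorem lower (hL : C_LO) {n r t : ℕ} {Δ : Finset (Finset (Fin n))} (hcx : Cx Δ r t)
    (hvx : ∀ i, {i} ∈ Δ) (hrn : r + 2 ≤ n) {M κ : ℝ} (hM : 0 < M)
    (hκ : κ = n - 1 / M) (hκ0 : 0 < κ) (hκ1 : κ < 1 / 3) (P : (Fin n → ℤ) → Prop)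
    (hP : ∀ x, ∑ i, x i = 0 → (∀ i, x i ≠ 0) → NV x → Tp Δ (ab x) → P x)
    (ε : ℝ) (hε : 0 < ε) :
    ∀ᶠ L : ℝ in atTop,
      Real.exp ((1 / M - 1) * L + (cst r t * κ ^ ((r : ℝ) / (r + 1)) - ε) *
        Gs ((r : ℝ) / (r + 1)) L) ≤ ((VV P M (Real.exp L)).ncard : ℝ) := by
  classical
  have hr : 1 ≤ r := hcx.1
  have hn0 : 0 < n := by omega
  have hr0 : (0 : ℝ) < r := by exact_mod_cast hr
  obtain ⟨ρ, hρ⟩ : ∃ ρ : ℝ, ρ = (r : ℝ) / (r + 1) := ⟨_, rfl⟩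
  have hρ0 : 0 < ρ := by rw [hρ]; positivity
  rw [← hρ]
  obtain ⟨c, hc⟩ : ∃ c : ℝ, c = cst r t * κ ^ ρ := ⟨_, rfl⟩
  rw [← hc]
  have hc0 : 0 ≤ c := by
    rw [hc]; unfold cst; positivity
  obtain ⟨ε', hε'⟩ : ∃ ε' : ℝ, ε' = min (1 / 2) (ε / (c + 1)) := ⟨_, rfl⟩
  have hε'0 : 0 < ε' := by rw [hε']; exact lt_min (by norm_num) (by positivity)
  have hε'1 : ε' < 1 := by rw [hε']; exact lt_of_le_of_lt (min_le_left _ _) (by norm_num)
  have hε'c : ε' * c ≤ ε := by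
    have h1 : ε' ≤ ε / (c + 1) := by rw [hε']; exact min_le_right _ _
    have h2 : ε' * c ≤ ε / (c + 1) * c := mul_le_mul_of_nonneg_right h1 hc0
    refine h2.trans ?_
    rw [div_mul_eq_mul_div, div_le_iff₀ (by positivity)]
    nlinarith
  obtain ⟨X₀, hX₀, hlo⟩ := hL n r t Δ κ 2 ε' hcx hvx hrn hκ0 hκ1 (by norm_num) hε'0 hε'1
  filter_upwards [eventually_ge_atTop (Real.log X₀), eventually_gt_atTop 1] with L g1 g2
  have hG := Gs_pos (ρ := ρ) g2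
  have hX : X₀ ≤ Real.exp L := by
    rw [← Real.log_le_iff_le_exp (by linarith)]; exact g1
  obtain ⟨F, hF, h3⟩ := hlo (Real.exp L) hX
  rw [Real.log_exp] at h3
  have h4 : (F : Set (Fin n → ℤ)) ⊆ VV P M (Real.exp L) := by
    intro x hx
    obtain ⟨i1, i2, i3, i4, i5, i, i6⟩ := hF x hx
    refine ⟨hP x i1 i2 i3 i4, Ht_le hn0 i5, ?_⟩
    have hR : (0 : ℝ) < rr (ab x) := by exact_mod_cast rr_pos _
    have h5 : (n : ℝ) - κ = 1 / M := by rw [hκ]; ring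
    rw [h5] at i6
    have h6 : (rr (ab x) : ℝ) < (Ht x : ℝ) ^ (1 / M) := by
      have h7 : |(x i : ℝ)| ^ (1 / M) ≤ (Ht x : ℝ) ^ (1 / M) :=
        Real.rpow_le_rpow (abs_nonneg _) (le_Ht x i) (by positivity)
      linarith
    have h8 := Real.rpow_lt_rpow hR.le h6 hM
    rwa [← Real.rpow_mul (Nat.cast_nonneg _), one_div_mul_cancel hM.ne', Real.rpow_one] at h8
  have h5 := Set.ncard_le_ncard h4 (VV_fin P M _)
  rw [Set.ncard_coe_finset] at h5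
  have h6 : (F.card : ℝ) ≤ ((VV P M (Real.exp L)).ncard : ℝ) := by exact_mod_cast h5
  refine le_trans ?_ (h3.trans h6)
  apply Real.exp_le_exp.2
  have h7 : (κ * L / Real.log L) ^ ρ = κ ^ ρ * Gs ρ L := by
    unfold Gs
    rw [mul_div_assoc, Real.mul_rpow hκ0.le]
    exact div_nonneg (by linarith) (Real.log_nonneg (by linarith))
  rw [← hρ, h7]
  have h8 : (1 - ε') * cst r t * (κ ^ ρ * Gs ρ L) = (1 - ε') * c * Gs ρ L := by
    rw [hc]; ring
  rw [h8]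
  have h9 : (c - ε) * Gs ρ L ≤ (1 - ε') * c * Gs ρ L := by
    apply mul_le_mul_of_nonneg_right _ hG.le
    linarith
  have h10 : (1 / M - 1) * L = ((n : ℝ) - 1 - κ) * L := by rw [hκ]; ring
  linarith

/-- **The limit.** -/
theorem limit (hU : C_UP) (hL : C_LO) {n r t : ℕ} {Δ : Finset (Finset (Fin n))} (hcx : Cx Δ r t)
    (hvx : ∀ i, {i} ∈ Δ) (hrn : r + 2 ≤ n) {M : ℝ}
    (hM1 : 1 / (n : ℝ) < M) (hM2 : M < 3 / (3 * n - 1)) (P : (Fin n → ℤ) → Prop)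
    (hP1 : ∀ x, P x → ∑ i, x i = 0 ∧ (∀ i, x i ≠ 0) ∧ Tp Δ (ab x))
    (hP2 : ∀ x, ∑ i, x i = 0 → (∀ i, x i ≠ 0) → NV x → Tp Δ (ab x) → P x) :
    Tendsto (fun X : ℝ => (Real.log ((VV P M X).ncard : ℝ) - (1 / M - 1) * Real.log X) /
      (Real.log X / Real.log (Real.log X)) ^ ((r : ℝ) / (r + 1))) atTop
      (𝓝 (cst r t * ((n : ℝ) - 1 / M) ^ ((r : ℝ) / (r + 1)))) := by
  have hr : 1 ≤ r := hcx.1
  have hn3 : (3 : ℝ) ≤ n := by exact_mod_cast (by omega : 3 ≤ n)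
  have hM : 0 < M := lt_trans (by positivity) hM1
  have hr0 : (0 : ℝ) < r := by exact_mod_cast hr
  obtain ⟨κ, hκ⟩ : ∃ κ : ℝ, κ = (n : ℝ) - 1 / M := ⟨_, rfl⟩
  have hκ0 : 0 < κ := by
    rw [hκ, sub_pos, div_lt_iff₀ hM]
    rw [div_lt_iff₀ (by linarith)] at hM1
    linarith
  have hκ1 : κ < 1 / 3 := by
    rw [lt_div_iff₀ (by linarith)] at hM2
    have h1 : (n : ℝ) - 1 / 3 < 1 / M := by
      rw [lt_div_iff₀ hM]
      linarith
    rw [hκ]
    linarith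
  rw [← hκ]
  have hρ0 : 0 < (r : ℝ) / (r + 1) := by positivity
  have h := squeeze hρ0 (fun L => ((VV P M (Real.exp L)).ncard : ℝ))
    (fun ε hε => upper hU hcx hrn hM hκ hκ0 hκ1 P hP1 ε hε)
    (fun ε hε => lower hL hcx hvx hrn hM hκ hκ0 hκ1 P hP2 ε hε)
  have h2 := h.comp Real.tendsto_log_atTop
  refine h2.congr' ?_
  filter_upwards [eventually_gt_atTop (0 : ℝ)] with X hX
  simp only [Function.comp_apply, Gs]
  rw [Real.exp_log hX]

end Pool.Agent.U189.NT
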